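import Pool.Agent.X34.S2.Few3
import Pool.Agent.X34.S2.Tuple

/-!
# Solutions of `σ₂ = σₙ` with few distinct entries

`S n` is the set of non-decreasing `n`-tuples of positive integers with `σ₂ = σₙ` and `M n` is the least number of
distinct entries of an element of `S n`. Then `M n = 4` for infinitely many `n`, so `limsup M n = 4`.
-/

set_option autoImplicit false

namespace Pool.Agent.Results.MP_2b461e_nt.LimsupFour

/-- the `k`-th elementary symmetric polynomial at `x` -/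
def sigma {n : ℕ} (k : ℕ) (x : Fin n → ℕ) : ℕ :=
  ∑ t ∈ Finset.powersetCard k (Finset.univ : Finset (Fin n)), ∏ i ∈ t, x i

/-- the non-decreasing `n`-tuples of positive integers with `σ₂ = σₙ` -/
def S (n : ℕ) : Set (Fin n → ℕ) :=
  {x | Monotone x ∧ (∀ i, 0 < x i) ∧ sigma 2 x = sigma n x}

/-- the number of distinct entries -/
def entries {n : ℕ} (x : Fin n → ℕ) : ℕ := (Finset.univ.image x).card

/-- the least number of distinct entries of a solution -/
noncomputable def M (n : ℕ) : ℕ := sInf {c | ∃ x ∈ S n, entries x = c}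

open Pool.Agent.X34.S2

/-- the multiset of the entries -/
def ms {n : ℕ} (x : Fin n → ℕ) : Multiset ℕ := (Finset.univ : Finset (Fin n)).val.map x

theorem ms_eq {n : ℕ} (x : Fin n → ℕ) : ms x = (List.ofFn x : Multiset ℕ) := Fin.univ_val_map x

theorem ms_esymm {n : ℕ} (k : ℕ) (x : Fin n → ℕ) : (ms x).esymm k = sigma k x :=
  Finset.esymm_map_val x Finset.univ k

theorem entries_eq {n : ℕ} (x : Fin n → ℕ) : entries x = (ms x).toFinset.card := rfl

theorem image_S (n : ℕ) : ms '' (S n) = Mul n := by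
  ext s
  constructor
  · rintro ⟨x, ⟨h1, h2, h3⟩, rfl⟩
    refine ⟨by simp [ms], ?_, ?_⟩
    · intro a ha
      obtain ⟨i, -, rfl⟩ := Multiset.mem_map.mp ha
      exact h2 i
    · rw [ms_esymm, ms_esymm]; exact h3
  · rintro ⟨h1, h2, h3⟩
    have hl : (s.sort (· ≤ ·)).length = n := by rw [Multiset.length_sort, h1]
    subst hl
    refine ⟨(s.sort (· ≤ ·)).get, ?_, ?_⟩
    · have hM : ms (s.sort (· ≤ ·)).get = s := by
        rw [ms_eq, List.ofFn_get, Multiset.sort_eq]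
      refine ⟨?_, ?_, ?_⟩
      · exact (Multiset.pairwise_sort s (· ≤ ·)).sortedLE.monotone_get
      · intro i
        apply h2
        rw [← Multiset.mem_sort (r := (· ≤ ·))]
        exact List.get_mem _ _
      · rw [← ms_esymm, ← ms_esymm, hM]; exact h3
    · rw [ms_eq, List.ofFn_get, Multiset.sort_eq]

theorem known_mem {n : ℕ} (hn : 3 ≤ n) : ∃ Y ∈ Sol n, Y.toFinset.card ≤ 3 := by
  obtain ⟨k, rfl⟩ := Nat.exists_eq_add_of_le hn
  have hev : 2 ∣ (3 + k) * (3 * k + 4) := by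
    rcases Nat.even_or_odd k with ⟨j, hj⟩ | ⟨j, hj⟩
    · exact ⟨(3 + k) * (3 * j + 2), by rw [hj]; ring⟩
    · exact ⟨(j + 2) * (3 * k + 4), by rw [hj]; ring⟩
  obtain ⟨w, hw⟩ := hev
  have hw2 : 2 ≤ w := by nlinarith
  refine ⟨2 ::ₘ (3 + k) ::ₘ w ::ₘ 0, ⟨?_, ?_, ?_⟩, ?_⟩
  · intro y hy
    simp only [Multiset.mem_cons, Multiset.notMem_zero, or_false] at hy
    omega
  · simp
  · rw [Multiset.prod_cons, Multiset.prod_cons, Multiset.prod_cons, Multiset.prod_zero,
      v_cons, v_cons, v_cons, v_zero, u_cons, u_cons, u_cons, u_zero]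
    obtain ⟨t, rfl⟩ := Nat.exists_eq_add_of_le hw2
    have e1 : 2 + t - 1 = t + 1 := by omega
    have e2 : 3 + k - 1 = k + 2 := by omega
    have e3 : 3 + k + (2 - 1 + (k + 2 + (t + 1 + 0))) = 2 * k + t + 7 := by omega
    have e4 : 2 * k + t + 7 - 1 = 2 * k + t + 6 := by omega
    rw [e1, e2, e3, e4]
    nlinarith
  · refine (Multiset.toFinset_card_le _).trans ?_
    simp

theorem M_le {n : ℕ} (hn : 3 ≤ n) : M n ≤ 4 := by
  obtain ⟨Y, hY, hc⟩ := known_mem hn
  have h1 : Y + Multiset.replicate (n - Y.card) 1 ∈ Mul n := by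
    rw [← Mul_image (by omega)]; exact ⟨Y, hY, rfl⟩
  rw [← image_S] at h1
  obtain ⟨x, hx, hxY⟩ := h1
  have h2 : entries x ≤ 4 := by
    rw [entries_eq, hxY]
    have h3 : (Y + Multiset.replicate (n - Y.card) 1).toFinset ⊆ insert 1 Y.toFinset := by
      intro t ht
      rw [Multiset.mem_toFinset, Multiset.mem_add] at ht
      rw [Finset.mem_insert, Multiset.mem_toFinset]
      rcases ht with h | h
      · right; exact h
      · left; exact Multiset.eq_of_mem_replicate h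
    exact (Finset.card_le_card h3).trans ((Finset.card_insert_le _ _).trans (by omega))
  have h3 : M n ≤ entries x := Nat.sInf_le ⟨x, hx, rfl⟩
  exact h3.trans h2

theorem le_M {n : ℕ} (hn : 3 ≤ n) (h : ∀ Y ∈ Sol n, Y.card < n ∧ 3 ≤ Y.toFinset.card) :
    4 ≤ M n := by
  have hne : {c | ∃ x ∈ S n, entries x = c}.Nonempty := by
    obtain ⟨Y, hY, -⟩ := known_mem hn
    have h1 : Y + Multiset.replicate (n - Y.card) 1 ∈ Mul n := by
      rw [← Mul_image (by omega)]; exact ⟨Y, hY, rfl⟩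
    rw [← image_S] at h1
    obtain ⟨x, hx, -⟩ := h1
    exact ⟨_, x, hx, rfl⟩
  obtain ⟨x, hx, hc⟩ := Nat.sInf_mem hne
  have h1 : ms x ∈ Mul n := by rw [← image_S]; exact ⟨x, hx, rfl⟩
  rw [← Mul_image (by omega)] at h1
  obtain ⟨Y, hY, hYx⟩ := h1
  obtain ⟨h2, h3⟩ := h Y hY
  have h4 : insert 1 Y.toFinset ⊆ (ms x).toFinset := by
    intro t ht
    rw [← hYx, Multiset.mem_toFinset]
    simp only [Multiset.mem_add]
    rcases Finset.mem_insert.mp ht with h | h
    · right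
      rw [h, Multiset.mem_replicate]
      exact ⟨by omega, rfl⟩
    · left; exact Multiset.mem_toFinset.mp h
  have h5 : 1 ∉ Y.toFinset := by
    intro h
    have := hY.1 1 (Multiset.mem_toFinset.mp h)
    omega
  have h6 := Finset.card_le_card h4
  rw [Finset.card_insert_of_notMem h5, ← entries_eq] at h6
  unfold M
  omega

/-- `M n ≤ 4` for all `n ≥ 3`, `M n = 4` for infinitely many `n`, and `limsup M n = 4`. -/
theorem result : (∀ n, 3 ≤ n → M n ≤ 4) ∧ (∀ N : ℕ, ∃ n, N ≤ n ∧ M n = 4) ∧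
    Filter.limsup M Filter.atTop = 4 := by
  have h1 : ∀ n, 3 ≤ n → M n ≤ 4 := fun n hn => M_le hn
  have h2 : ∀ N : ℕ, ∃ n, N ≤ n ∧ M n = 4 := by
    intro N
    obtain ⟨K0, hK0⟩ := few
    obtain ⟨n, hn1, -, hn2⟩ := hK0 (K0 + N + 3) (by omega)
    have h3 : K0 + N + 3 ≤ (K0 + N + 3) ^ 80 := by
      calc K0 + N + 3 = (K0 + N + 3) ^ 1 := (pow_one _).symm
        _ ≤ _ := Nat.pow_le_pow_right (by omega) (by norm_num)
    exact ⟨n, by omega, le_antisymm (M_le (by omega)) (le_M (by omega) hn2)⟩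
  refine ⟨h1, h2, ?_⟩
  rw [Filter.limsup_eq]
  have h4 : (4 : ℕ) ∈ {a | ∀ᶠ n in Filter.atTop, M n ≤ a} :=
    Filter.eventually_atTop.mpr ⟨3, h1⟩
  apply le_antisymm (Nat.sInf_le h4)
  have h5 := Nat.sInf_mem (⟨4, h4⟩ : {a | ∀ᶠ n in Filter.atTop, M n ≤ a}.Nonempty)
  obtain ⟨N, hN⟩ := Filter.eventually_atTop.mp h5
  obtain ⟨n, hn, hM⟩ := h2 N
  have := hN n hn
  omega

end Pool.Agent.Results.MP_2b461e_nt.LimsupFour
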